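import Pool.Agent.N522.LT.Theory

/-!
# Vanishing of invariants in log `ℓ`-adic cohomology over finite fields: definitions
-/

set_option autoImplicit false

namespace Pool.Agent.N992.WM

open Pool.Agent.N522.LogT

noncomputable section

/-- The Künneth formula for `Y = X × E ^ t`, `E` the log Tate curve: the representation
`Hom(Sym ^ t H^1(E), H^m(X))(-t) = H^m(X) ⊗ Sym ^ t H^1(E)` is a direct summand of `H^(m + t)(Y)`. -/
def PowersOfTateCurve (T : LogTheory) : Prop :=
  ∀ X t, ∃ Y, ∀ m, ∃ p,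
    IsSummand (hom (sym T.q t) (tw ((T.q : ℂ) ^ t) (T.H X m))) (T.H Y (m + t)) p

/-- A smooth projective scheme of dimension `e` has no cohomology in degrees more than `2 e`. -/
def ConstVanishing (T : LogTheory) : Prop :=
  ∀ Z e, T.IsConst Z e → ∀ b, 2 * e < b → Subsingleton (T.H Z b).V

/-- `H^m(X)(r)^G = 0`. -/
def NoInvariants (T : LogTheory) (X : T.Obj) (m r : ℕ) : Prop :=
  ∀ v, Inv (tw ((T.q : ℂ) ^ r)⁻¹ (T.H X m)) v → v = 0

end

end Pool.Agent.N992.WM
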