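import Pool.Agent.N992.WM.Main
import Pool.Agent.N992.WM.Defs

/-!
# The equivalences
-/

set_option autoImplicit false

namespace Pool.Agent.N992.WM

open Module Pool.Agent.N522 Pool.Agent.N522.LogT

variable {T : LogTheory}

theorem constZero (h : ConstVanishing T) : ConstZero (toOld T) := by
  intro Z e hZ b hb (x : (T.H Z b).V)
  exact @Subsingleton.elim _ (h Z e hZ b hb) x 0

variable (hT : IsLogTheory T)

include hT

theorem powers (h : PowersOfTateCurve T) : Powers (toOld T) := by
  intro X t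
  obtain ⟨Y, hY⟩ := h X t
  refine ⟨Y, fun m => ?_⟩
  obtain ⟨p, ⟨p1, p2, p3⟩, i, ⟨i1, i2, i3⟩, hpi⟩ := hY m
  refine ⟨i, p, hpi, fun f f' hf => ?_, fun f => ?_, fun f => ?_⟩
  · exact (i1 f).symm.trans (congrArg i
      (hom_F_eq (sym T.q t) (tw ((T.q : ℂ) ^ t) (T.H X m))
        (sym_bijective (by have := hT.one_lt; omega) t) f f' hf))
  · exact (i2 f).symm
  · exact (i3 f).symm.trans (congrArg i
      (hom_s (sym T.q t) (tw ((T.q : ℂ) ^ t) (T.H X m)) rfl f))

/-- **The theorem.** -/
theorem main (h1 : PowersOfTateCurve T) (h2 : ConstVanishing T) :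
    ((∀ X r, 0 < r → NoInvariants T X (2 * r - 1) r) ↔ ∀ X m, WeightMonodromy T X m) ∧
      ((∀ X m r, m < 2 * r → NoInvariants T X m r) ↔ ∀ X m, WeightMonodromy T X m) := by
  have hS := isLog hT
  have hJ : (∀ X r, 0 < r → NoInvariants T X (2 * r - 1) r) →
      ∀ X m, WeightMonodromy T X m := by
    intro h X m
    refine mw_of_just hS (powers hT h1) (constZero h2) ?_ X m
    intro X m r hm v hv
    have hm' : m = 2 * r - 1 := by omega
    subst hm'
    exact h X r (by omega) v ((tw_inv hT r (A := T.H X (2 * r - 1)) v).2 hv)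
  have hM : (∀ X m, WeightMonodromy T X m) → ∀ X m r, m < 2 * r → NoInvariants T X m r := by
    intro h X m r hm v hv
    exact vanishing_of_mw (S := toOld T) h hm v ((tw_inv hT r (A := T.H X m) v).1 hv)
  exact ⟨⟨hJ, fun h X r hr => hM h X _ r (by omega)⟩,
    ⟨fun h => hJ fun X r hr => h X _ r (by omega), hM⟩⟩

end Pool.Agent.N992.WM
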