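import Pool.Agent.N522.LT.Bridge

/-!
# Weight-monodromy and the vanishing of invariants just below the Tate line
-/

set_option autoImplicit false

namespace Pool.Agent.N992.WM

open Module Pool.Agent.N522 Pool.Agent.N522.LT

/-! ### Linear algebra -/

section Lin

variable {V W : Type} [AddCommGroup V] [Module ℂ V] [AddCommGroup W] [Module ℂ W]

/-- Powers of `N` are injective on the generalised eigenspaces of weight more than `m`. -/
def PropC (F N : End ℂ V) (q m : ℕ) : Prop :=
  ∀ (t : ℕ) (α : ℂ) (x : V), ‖α‖ ^ 2 = (q : ℝ) ^ (m + t) →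
    x ∈ F.maxGenEigenspace α → (N ^ t) x = 0 → x = 0

theorem propB_of_propC {F N : End ℂ V} {q m : ℕ} (h : PropC F N q m) : PropB F N q m :=
  fun t α x hα hx h0 => ⟨0, by rw [map_zero, h t α x hα hx h0]⟩

theorem propA_of_dual [FiniteDimensional ℂ W] {F N : End ℂ V} {G M : End ℂ W} {q m m' d : ℕ}
    (hq : 1 < q) (hmm : m + m' = 2 * d) (B : V →ₗ[ℂ] W →ₗ[ℂ] ℂ)
    (hperf : Function.Bijective B.flip)
    (hB : ∀ x y, B (F x) (G y) = (q : ℂ) ^ d * B x y) (hN : ∀ x y, B (N x) y = - B x (M y))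
    (hMG : ∀ y, M (G y) = (q : ℂ) • G (M y)) (hC : PropC G M q m') : PropA F N q m := by
  intro t α x hα hx _
  have hq0 : (q : ℂ) ≠ 0 := by exact_mod_cast (by omega : q ≠ 0)
  have hqr : (0 : ℝ) < q := by exact_mod_cast (by omega : 0 < q)
  have hα0 : α ≠ 0 := by
    rintro rfl
    rw [norm_zero, zero_pow two_ne_zero] at hα
    exact (pow_pos hqr (m + t)).ne hα
  have hNt : ∀ (t : ℕ) x y, B ((N ^ t) x) y = (-1) ^ t * B x ((M ^ t) y) := by
    intro t
    induction t with
    | zero => intro x y; simp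
    | succ t ih =>
      intro x y
      rw [pow_succ, End.mul_apply, ih, hN, pow_succ' M, End.mul_apply]
      ring
  have hMt : ∀ (k : ℕ) y, (M ^ k) (G y) = (q : ℂ) ^ k • G ((M ^ k) y) := by
    intro k
    induction k with
    | zero => intro y; simp
    | succ k ih =>
      intro y
      rw [pow_succ, End.mul_apply, hMG, map_smul, ih, smul_smul, End.mul_apply, ← pow_succ']
  -- `B x` vanishes on the kernel of `M ^ t`
  have key : ∀ y ∈ LinearMap.ker (M ^ t), B x y = 0 := by
    have hinv : ∀ y ∈ LinearMap.ker (M ^ t), G y ∈ LinearMap.ker (M ^ t) := by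
      intro y hy
      rw [LinearMap.mem_ker] at hy ⊢
      rw [hMt, hy, map_zero, smul_zero]
    intro y hy0
    have h1 : y ∈ ⨆ β, LinearMap.ker (M ^ t) ⊓ G.genEigenspace β ⊤ := by
      rw [← Submodule.inf_iSup_genEigenspace hinv]
      refine ⟨hy0, ?_⟩
      have := End.iSup_maxGenEigenspace_eq_top G
      change y ∈ ⨆ β, G.maxGenEigenspace β
      rw [this]; trivial
    clear hy0
    induction h1 using Submodule.iSup_induction' with
    | mem β y hy =>
      have hy1 : (M ^ t) y = 0 := LinearMap.mem_ker.1 hy.1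
      have hy2 : y ∈ G.maxGenEigenspace β := hy.2
      by_cases hc : (α / (q : ℂ) ^ t) * β = (q : ℂ) ^ d
      · have hn : ‖β‖ ^ 2 = (q : ℝ) ^ (m' + t) := by
          have h2 : ‖α / (q : ℂ) ^ t‖ ^ 2 * ‖β‖ ^ 2 = (q : ℝ) ^ (2 * d) := by
            rw [← mul_pow, ← norm_mul, hc, norm_pow, Complex.norm_natCast, ← pow_mul, mul_comm]
          rw [norm_div, norm_pow, Complex.norm_natCast, div_pow, hα, ← hmm] at h2
          have h3 : (q : ℝ) ^ m * ‖β‖ ^ 2 = (q : ℝ) ^ m * (q : ℝ) ^ (m' + t) := by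
            have h4 : (q : ℝ) ^ t ≠ 0 := (pow_pos hqr t).ne'
            field_simp at h2
            rw [← pow_mul] at h2
            have h5 : (q : ℝ) ^ t * ((q : ℝ) ^ m * ‖β‖ ^ 2) =
                (q : ℝ) ^ t * ((q : ℝ) ^ m * (q : ℝ) ^ (m' + t)) := by
              calc (q : ℝ) ^ t * ((q : ℝ) ^ m * ‖β‖ ^ 2) = (q : ℝ) ^ (m + t) * ‖β‖ ^ 2 := by ring
                _ = _ := h2
                _ = _ := by ring
            exact mul_left_cancel₀ h4 h5
          exact mul_left_cancel₀ (pow_pos hqr m).ne' h3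
        rw [hC t β y hn hy2 hy1, map_zero]
      · rw [End.mem_maxGenEigenspace] at hx hy2
        obtain ⟨k, hk⟩ := hx
        obtain ⟨l, hl⟩ := hy2
        exact pairing_gen B hB hc (k + l) k l le_rfl x y hk hl
    | zero => exact map_zero _
    | add y z _ _ h1 h2 => rw [map_add, h1, h2, add_zero]
  by_contra hne
  have h1 : x ∉ LinearMap.range (N ^ t) := fun ⟨y, hy⟩ => hne ⟨y, hy⟩
  obtain ⟨f, hf, hf2⟩ := Submodule.exists_le_ker_of_notMem h1
  obtain ⟨y, hy⟩ := hperf.2 f
  have h2 : (M ^ t) y = 0 := by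
    refine hperf.1 ?_
    rw [map_zero]
    ext x'
    have h3 : B ((N ^ t) x') y = 0 := by
      have : (B.flip y) ((N ^ t) x') = 0 := by
        rw [hy]
        exact hf2 (LinearMap.mem_range_self (N ^ t) x')
      exact this
    rw [hNt] at h3
    exact (mul_eq_zero.1 h3).resolve_left (pow_ne_zero t (by norm_num))
  refine hf ?_
  rw [← hy]
  exact key y h2

/-- an eigenvalue has an eigenfunctional -/
theorem exists_eigenfunctional [FiniteDimensional ℂ V] {φ : End ℂ V} {β : ℂ}
    (h : φ.HasEigenvalue β) : ∃ f : V →ₗ[ℂ] ℂ, f ≠ 0 ∧ ∀ a, f (φ a) = β * f a := by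
  have h1 : LinearMap.range (φ - β • (1 : End ℂ V)) < ⊤ := by
    rw [lt_top_iff_ne_top]
    intro h2
    have h3 := LinearMap.range_eq_top.1 h2
    have h4 : Function.Injective (φ - β • (1 : End ℂ V)) := LinearMap.injective_iff_surjective.2 h3
    obtain ⟨w, hw⟩ := h.exists_hasEigenvector
    apply hw.2
    apply h4
    rw [map_zero, LinearMap.sub_apply, LinearMap.smul_apply, End.one_apply, hw.apply_eq_smul,
      sub_self]
  obtain ⟨f, hf0, hf⟩ := Submodule.exists_le_ker_of_lt_top _ h1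
  refine ⟨f, hf0, fun a => ?_⟩
  have h2 : f ((φ - β • (1 : End ℂ V)) a) = 0 := hf (LinearMap.mem_range_self _ a)
  rw [LinearMap.sub_apply, LinearMap.smul_apply, End.one_apply, map_sub, map_smul, smul_eq_mul,
    sub_eq_zero] at h2
  exact h2

end Lin

/-! ### The theory -/

variable {S : LT.LogTheory}

/-- the invariants of `H^(2 r - 1)(X)(r)` vanish -/
def Just (S : LT.LogTheory) : Prop :=
  ∀ X m r, m + 1 = 2 * r → ∀ v : S.H X m, IsInv S r v → v = 0

/-- `Sym^t H^1(E) ⊗ H^m(X)` is a direct summand of `H^(m + t)(X × E ^ t)` -/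
def Powers (S : LT.LogTheory) : Prop :=
  ∀ X t, ∃ Y, ∀ m, ∃ (J : ((Fin (t + 1) → ℂ) →ₗ[ℂ] S.H X m) →ₗ[ℂ] S.H Y (m + t))
    (P : S.H Y (m + t) →ₗ[ℂ] ((Fin (t + 1) → ℂ) →ₗ[ℂ] S.H X m)),
    (∀ f, P (J f) = f) ∧
    (∀ f f', (∀ c, f' (LT.symF S.q t c) = (S.q : ℂ) ^ t • S.F X m (f c)) →
      S.F Y (m + t) (J f) = J f') ∧
    (∀ f, S.N Y (m + t) (J f) = J (S.N X m ∘ₗ f - f ∘ₗ LT.symN t)) ∧
    ∀ f, S.s Y (m + t) (J f) = J (S.s X m ∘ₗ f)

/-- constant schemes of dimension `e` have no cohomology in degrees more than `2 e` -/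
def ConstZero (S : LT.LogTheory) : Prop :=
  ∀ Z e, S.IsConst Z e → ∀ b, 2 * e < b → ∀ x : S.H Z b, x = 0

variable (hS : LT.IsLogTheory S) (hP : Powers S) (hZ : ConstZero S) (hV : Just S)

include hS hZ hV in
theorem eigen_zero {X : S.Obj} {m : ℕ} {x : S.H X m} {β : ℂ} (hF : S.F X m x = β • x)
    (hN : S.N X m x = 0) (hs : S.s X m x = x) (hβ : ‖β‖ ^ 2 = (S.q : ℝ) ^ (m + 1)) : x = 0 := by
  by_contra hx
  have hq0 := q_ne hS
  have hq1 : (1 : ℝ) < S.q := by exact_mod_cast hS.one_lt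
  obtain ⟨ι, _, Z, e, b, i, hZ', C, π, hC1, hC2, hC3⟩ := hS.strata X m β
  have hxg : x ∈ (S.F X m).maxGenEigenspace β := by
    rw [End.mem_maxGenEigenspace]
    refine ⟨1, ?_⟩
    rw [pow_one, LinearMap.sub_apply, LinearMap.smul_apply, End.one_apply, hF, sub_self]
  obtain ⟨c, hc⟩ := hC3 hxg
  have hne : ∃ l, (c : ∀ l, S.H (Z l) (b l)) l ≠ 0 := by
    by_contra hall
    push Not at hall
    apply hx
    have : c = 0 := Subtype.ext (funext hall)
    rw [← hc, this, map_zero]
  obtain ⟨l, hl⟩ := hne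
  have hcl := hC1 c c.2 l
  have := hS.finite (Z l) (b l)
  have hev1 : ((S.q : ℂ) ^ i l • S.F (Z l) (b l)).HasEigenvalue β := eigen_of_gen hcl hl
  have hev : (S.F (Z l) (b l)).HasEigenvalue (β / (S.q : ℂ) ^ i l) := by
    obtain ⟨w, hw⟩ := hev1.exists_hasEigenvector
    refine End.hasEigenvalue_of_hasEigenvector (x := w) ⟨?_, hw.2⟩
    rw [End.mem_eigenspace_iff]
    have h2 : (S.q : ℂ) ^ i l • S.F (Z l) (b l) w = β • w := hw.apply_eq_smul
    rw [div_eq_inv_mul, ← smul_smul, ← h2, smul_smul, inv_mul_cancel₀ (pow_ne_zero _ hq0),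
      one_smul]
  have hdeg : b l + 2 * i l = m + 1 := by
    have h1 := hS.deligne (Z l) (e l) (hZ' l) (b l) _ hev
    rw [norm_div, norm_pow, Complex.norm_natCast, div_pow,
      div_eq_iff (pow_ne_zero 2 (pow_ne_zero _ (by positivity))), ← pow_mul, ← pow_add] at h1
    rw [h1] at hβ
    have h2 := pow_right_injective₀ (by positivity : (0 : ℝ) < S.q) hq1.ne' hβ
    omega
  have hb : b l ≤ 2 * e l := by
    by_contra h
    exact hl (hZ (Z l) (e l) (hZ' l) (b l) (by omega) _)
  obtain ⟨f, hf0, hf⟩ := exists_eigenfunctional hev1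
  obtain ⟨Y, hY⟩ := hS.correspondences X (Z l) (e l) (hZ' l)
  obtain ⟨I, P, h1, h2, h3, h4, h5⟩ := hY m (b l) (m + (2 * e l - b l)) (by omega)
  have hinv : IsInv S (e l + i l) (I (f.smulRight x)) := by
    refine ⟨?_, ?_, ?_⟩
    · rw [h2 (f.smulRight x) ((S.q : ℂ) ^ (e l + i l) • f.smulRight x), map_smul]
      intro z
      have h6 := hf z
      rw [LinearMap.smul_apply, map_smul, smul_eq_mul] at h6
      rw [LinearMap.smul_apply, LinearMap.smulRight_apply, LinearMap.smulRight_apply, map_smul, hF,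
        smul_smul, smul_smul, smul_smul, pow_add, mul_assoc, h6]
      congr 1
      ring
    · have h6 : S.N X m ∘ₗ f.smulRight x = 0 := by
        ext z
        rw [LinearMap.comp_apply, LinearMap.smulRight_apply, map_smul, hN, smul_zero,
          LinearMap.zero_apply]
      rw [h3, h6, map_zero]
    · have h6 : S.s X m ∘ₗ f.smulRight x = f.smulRight x := by
        ext z
        rw [LinearMap.comp_apply, LinearMap.smulRight_apply, map_smul, hs]
      rw [h4, h6]
  have h6 := hV Y (m + (2 * e l - b l)) (e l + i l) (by omega) _ hinv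
  have h7 : f.smulRight x = 0 := by rw [← h1 (f.smulRight x), h6, map_zero]
  apply hf0
  ext z
  have h8 := LinearMap.congr_fun h7 z
  rw [LinearMap.smulRight_apply, LinearMap.zero_apply] at h8
  rw [LinearMap.zero_apply]
  exact (smul_eq_zero.1 h8).resolve_right hx

include hS in
theorem pow_N_F (X : S.Obj) (m : ℕ) (k : ℕ) (x : S.H X m) : (S.N X m ^ k) (S.F X m x) =
    (S.q : ℂ) ^ k • S.F X m ((S.N X m ^ k) x) := by
  induction k generalizing x with
  | zero => simp
  | succ k ih =>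
    rw [pow_succ, End.mul_apply, hS.monodromy, map_smul, ih, smul_smul, End.mul_apply, ← pow_succ']

include hS hP hZ hV in
theorem eigen_pow_zero {X : S.Obj} {m t : ℕ} {x : S.H X m} {α : ℂ} (hF : S.F X m x = α • x)
    (hN : (S.N X m ^ (t + 1)) x = 0) (hs : S.s X m x = x)
    (hα : ‖α‖ ^ 2 = (S.q : ℝ) ^ (m + (t + 1))) : x = 0 := by
  have hq0 := q_ne hS
  obtain ⟨Y, hY⟩ := hP X t
  obtain ⟨J, P, h1, h2, h3, h4⟩ := hY m
  obtain ⟨u, hu⟩ : ∃ u : Fin (t + 1) → S.H X m,
      ∀ i, u i = ((i : ℕ).factorial : ℂ) • (S.N X m ^ (t - i)) x := ⟨_, fun i => rfl⟩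
  have hsu : ∀ i, S.s X m (u i) = u i := by
    intro i
    have hc : Commute (S.s X m) (S.N X m) := LinearMap.ext fun x => hS.s_comm X m x
    rw [hu, map_smul, ← End.mul_apply, (hc.pow_right _).eq, End.mul_apply, hs]
  have hFu : ∀ i : Fin (t + 1), (S.q : ℂ) ^ t • S.F X m (u i) =
      (α * (S.q : ℂ) ^ (i : ℕ)) • u i := by
    intro i
    have hi : (i : ℕ) ≤ t := Nat.lt_succ_iff.1 i.2
    have h5 := pow_N_F hS X m (t - i) x
    rw [hF, map_smul] at h5
    have h6 : (S.q : ℂ) ^ t = (S.q : ℂ) ^ (i : ℕ) * (S.q : ℂ) ^ (t - (i : ℕ)) := by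
      rw [← pow_add]; congr 1; omega
    rw [hu, map_smul, smul_comm ((S.q : ℂ) ^ t), h6, ← smul_smul _ _ (S.F X m _), ← h5,
      smul_smul ((S.q : ℂ) ^ (i : ℕ)) α, mul_comm α, smul_comm]
  have hNu0 : S.N X m (u 0) = 0 := by
    have h5 : (S.N X m ^ (t + 1)) x = S.N X m ((S.N X m ^ t) x) := by
      rw [pow_succ', End.mul_apply]
    rw [hu]
    simp only [Fin.val_zero, Nat.factorial_zero, Nat.cast_one, one_smul, Nat.sub_zero]
    rw [← h5, hN]
  have hNu : ∀ i : Fin t, S.N X m (u i.succ) = (((i : ℕ) : ℂ) + 1) • u i.castSucc := by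
    intro i
    rw [hu, hu, map_smul, ← End.mul_apply, ← pow_succ', Fin.val_succ, Fin.val_castSucc,
      show t - ((i : ℕ) + 1) + 1 = t - i by omega, smul_smul, Nat.factorial_succ]
    push_cast
    rfl
  set f : (Fin (t + 1) → ℂ) →ₗ[ℂ] S.H X m := Fintype.linearCombination ℂ u with hf
  have hfc : ∀ c, f c = ∑ i, c i • u i := fun c => Fintype.linearCombination_apply _ _ _
  have e1 : S.F Y (m + t) (J f) = α • J f := by
    rw [← map_smul]
    refine h2 f (α • f) fun c => ?_
    rw [LinearMap.smul_apply, hfc, hfc, map_sum, Finset.smul_sum, Finset.smul_sum]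
    refine Finset.sum_congr rfl fun i _ => ?_
    have e0 : symF S.q t c i = (S.q : ℂ) ^ (i : ℕ) * c i := rfl
    rw [map_smul, smul_comm ((S.q : ℂ) ^ t), hFu, smul_smul, smul_smul, e0]
    congr 1
    ring
  have e2 : S.N Y (m + t) (J f) = 0 := by
    rw [h3]
    have e0 : S.N X m ∘ₗ f - f ∘ₗ LT.symN t = 0 := by
      rw [sub_eq_zero]
      refine LinearMap.ext fun c => ?_
      rw [LinearMap.comp_apply, LinearMap.comp_apply, hfc, hfc, map_sum, Fin.sum_univ_succ,
        Fin.sum_univ_castSucc]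
      have h0 : S.N X m (c 0 • u 0) = 0 := by
        rw [map_smul, hNu0, smul_zero]
      have hl : symN t c (Fin.last t) • u (Fin.last t) = 0 := by
        have : symN t c (Fin.last t) = 0 := by
          simp [symN]
        rw [this, zero_smul]
      rw [h0, hl, zero_add, add_zero]
      refine Finset.sum_congr rfl fun i _ => ?_
      have h1 : symN t c i.castSucc = (((i : ℕ) : ℂ) + 1) * c i.succ := by
        simp only [symN, LinearMap.coe_mk, AddHom.coe_mk, Fin.val_castSucc]
        rw [dif_pos (by omega)]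
        rfl
      rw [h1, map_smul, hNu, smul_smul, mul_comm]
    rw [e0, map_zero]
  have e3 : S.s Y (m + t) (J f) = J f := by
    rw [h4]
    congr 1
    refine LinearMap.ext fun c => ?_
    rw [LinearMap.comp_apply, hfc, map_sum]
    exact Finset.sum_congr rfl fun i _ => by rw [map_smul, hsu]
  have e4 := eigen_zero hS hZ hV e1 e2 e3 (by rw [hα]; congr 1)
  have e5 : f = 0 := by rw [← h1 f, e4, map_zero]
  have e6 : u (Fin.last t) = 0 := by
    have h5 := LinearMap.congr_fun e5 (Pi.single (Fin.last t) 1)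
    rw [hf, Fintype.linearCombination_apply_single, one_smul, LinearMap.zero_apply] at h5
    exact h5
  rw [hu] at e6
  simp only [Fin.val_last, Nat.sub_self, pow_zero, End.one_apply] at e6
  exact (smul_eq_zero.1 e6).resolve_left (by exact_mod_cast t.factorial_ne_zero)

include hS hP hZ hV in
theorem propC_of_just (X : S.Obj) (hs : ∀ m, S.s X m = 1) (m : ℕ) :
    PropC (S.F X m) (S.N X m) S.q m := by
  intro t α x hα hx h0
  cases t with
  | zero => simpa using h0
  | succ t =>
    rw [End.mem_maxGenEigenspace] at hx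
    obtain ⟨k, hk⟩ := hx
    induction k generalizing x with
    | zero => simpa using hk
    | succ k ih =>
      have h1 : (S.F X m - α • (1 : End ℂ (S.H X m))) x = 0 := by
        apply ih
        · rw [LinearMap.sub_apply, LinearMap.smul_apply, End.one_apply, map_sub, map_smul,
            pow_N_F hS, h0, map_zero, smul_zero, smul_zero, sub_zero]
        · rw [← End.mul_apply, ← pow_succ]
          exact hk
      rw [LinearMap.sub_apply, LinearMap.smul_apply, End.one_apply, sub_eq_zero] at h1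
      exact eigen_pow_zero hS hP hZ hV h1 h0 (by rw [hs, End.one_apply]) hα

include hS hP hZ hV in
theorem mw_unip (X : S.Obj) (hs : ∀ m, S.s X m = 1) (m : ℕ) : WeightMonodromy S X m := by
  have := hS.finite X m
  obtain ⟨d, hd0, hd⟩ := hS.duality X
  have hA : PropA (S.F X m) (S.N X m) S.q m := by
    by_cases hm : m ≤ 2 * d
    · obtain ⟨B, hB1, hB2, hB3⟩ := hd m (2 * d - m) (by omega)
      have := hS.finite X (2 * d - m)
      exact propA_of_dual hS.one_lt (by omega) B hB1 hB2 hB3 (hS.monodromy X _)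
        (propC_of_just hS hP hZ hV X hs _)
    · intro t α x _ _ _
      exact ⟨0, by rw [map_zero, hd0 m (by omega) x]⟩
  exact mw_of_AB hS.one_lt (hS.frob_bijective X m).1 (hS.monodromy X m) hA
    (propB_of_propC (propC_of_just hS hP hZ hV X hs m))

include hS hP hZ hV in
/-- **Weight-monodromy from the vanishing.** -/
theorem mw_of_just (X : S.Obj) (m : ℕ) : WeightMonodromy S X m := by
  obtain ⟨X', hX'⟩ := hS.ramified X
  have h := mw_unip hS hP hZ hV X' (fun m => (hX' m).choose_spec.choose_spec.2.2.2) m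
  obtain ⟨θ, c, hc, hF, hN, _⟩ := hX' m
  have hFk : ∀ (β : ℂ) (k : ℕ) (x : S.H X' m),
      θ (((S.F X' m - β • (1 : End ℂ (S.H X' m))) ^ k) x) =
        ((S.F X m - β • (1 : End ℂ (S.H X m))) ^ k) (θ x) := by
    intro β k
    induction k with
    | zero => intro x; simp
    | succ k ih =>
      intro x
      rw [pow_succ, End.mul_apply, ih, pow_succ, End.mul_apply, LinearMap.sub_apply,
        LinearMap.sub_apply, map_sub, hF, LinearMap.smul_apply, LinearMap.smul_apply,
        End.one_apply, End.one_apply, map_smul]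
  have hgen : ∀ β x, θ x ∈ (S.F X m).maxGenEigenspace β ↔ x ∈ (S.F X' m).maxGenEigenspace β := by
    intro β x
    rw [End.mem_maxGenEigenspace, End.mem_maxGenEigenspace]
    refine exists_congr fun k => ?_
    rw [← hFk, map_eq_zero_iff θ θ.injective]
  have hNk : ∀ (k : ℕ) x, θ ((S.N X' m ^ k) x) = c ^ k • (S.N X m ^ k) (θ x) := by
    intro k
    induction k with
    | zero => intro x; simp
    | succ k ih =>
      intro x
      rw [pow_succ, End.mul_apply, ih, hN, map_smul, smul_smul, ← pow_succ, ← End.mul_apply,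
        ← pow_succ]
  intro t α hα
  obtain ⟨h1, h2, h3⟩ := h t α hα
  have hN' : ∀ x, (S.N X m ^ t) x = (c ^ t)⁻¹ • θ ((S.N X' m ^ t) (θ.symm x)) := by
    intro x
    rw [hNk, θ.apply_symm_apply, smul_smul, inv_mul_cancel₀ (pow_ne_zero t hc), one_smul]
  have hmem : ∀ β x, x ∈ (S.F X m).maxGenEigenspace β ↔
      θ.symm x ∈ (S.F X' m).maxGenEigenspace β := by
    intro β x
    rw [← hgen, θ.apply_symm_apply]
  refine ⟨fun x hx => ?_, fun x hx y hy hxy => ?_, fun z hz => ?_⟩
  · change (S.N X m ^ t) x ∈ (S.F X m).maxGenEigenspace _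
    rw [hN']
    exact Submodule.smul_mem _ _ ((hgen _ _).2 (h1 ((hmem _ _).1 hx)))
  · change (S.N X m ^ t) x = (S.N X m ^ t) y at hxy
    rw [hN', hN'] at hxy
    have h4 := smul_right_injective _ (inv_ne_zero (pow_ne_zero t hc)) hxy
    have h5 := h2 ((hmem _ _).1 hx) ((hmem _ _).1 hy) (θ.injective h4)
    exact θ.symm.injective h5
  · have hz' : c ^ t • θ.symm z ∈ (S.F X' m).maxGenEigenspace (α / (S.q : ℂ) ^ t) :=
      Submodule.smul_mem _ _ ((hmem _ _).1 hz)
    obtain ⟨y, hy, hyz⟩ := h3 hz'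
    refine ⟨θ y, (hgen _ _).2 hy, ?_⟩
    rw [hN', θ.symm_apply_apply, hyz, map_smul, θ.apply_symm_apply, smul_smul,
      inv_mul_cancel₀ (pow_ne_zero t hc), one_smul]

omit hS in
/-- The vanishing from weight-monodromy. -/
theorem vanishing_of_mw (hMW : ∀ X m, WeightMonodromy S X m) {X : S.Obj} {m r : ℕ}
    (hm : m < 2 * r) (v : S.H X m) (hv : IsInv S r v) : v = 0 := by
  obtain ⟨h1, h2, _⟩ := hv
  have hn : ‖(S.q : ℂ) ^ r‖ ^ 2 = (S.q : ℝ) ^ (m + (2 * r - m)) := by
    rw [norm_pow, Complex.norm_natCast, ← pow_mul]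
    congr 1
    omega
  have h3 := (hMW X m (2 * r - m) _ hn).injOn
  refine h3 ?_ (Submodule.zero_mem _) ?_
  · change v ∈ (S.F X m).maxGenEigenspace ((S.q : ℂ) ^ r)
    rw [End.mem_maxGenEigenspace]
    refine ⟨1, ?_⟩
    rw [pow_one, LinearMap.sub_apply, LinearMap.smul_apply, End.one_apply, h1, sub_self]
  · rw [map_zero, show 2 * r - m = (2 * r - m - 1) + 1 by omega, pow_succ, End.mul_apply, h2,
      map_zero]

end Pool.Agent.N992.WM
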